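import Pool.Agent.helper748_mc.FanThm

set_option autoImplicit false

/-! # The strong monodromy conjecture for linear systems of plane curves, II

`I = (f_j)` is an ideal of `ℂ[x₀, x₁, x₂]` generated by forms `f_j` of the same degree `d`. The
topological zeta function of `I` is `Z_J / (d s + 3)`, where `J` is the ideal sheaf which `I`
defines on the projective plane, and `Z_J` is computed by blowing up points; see `ConeZeta` (in
`Pool.Agent.W574.CN.Defs`), `PlaneZeta` and `LocalZeta` (in `Pool.Agent.W574.SM.ZetaDefs`). All
poles except possibly `-3/d` are known to be roots of `b_I` (`cone_main`), so that the question is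
whether `b_I(-3/d) = 0`; this is known if three of the forms are algebraically independent. We prove
it if `d ≠ 3` and some linear combination `g` of the `f_j` defines a curve with a point of
multiplicity `d - 1` such that some line which is a simple factor of the tangent cone at this point
is not a component of the curve.

The proof of `b(-3/d) = 0`, for a form `g` in the class (`g` is the linear combination):

* `ex_main`: a functional equation gives an identity
  `b(c) g ^ (K + 1) = ∑ (g ∂_i v_i(c) + (c - K) (∂_i g) v_i(c))` with forms `v_i(c)` of the degree
  `d K + 1` which depend polynomially on `c`; so `b(c) g ^ c` is the divergence of `v(c) g ^ (c - K)`;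
* `exact_two`: for `c = -3/d` this gives such an identity in the two variables `x₀`, `x₂`;
* `exists_primz`, `fibre_eq`: as `g = x₂ A + B` has the degree `1` in `x₂`, and as `3/d` is not an
  integer, one can integrate uniquely over `x₂`, at the cost of powers of `A` in the denominator;
* `order_contra`: this gives a differential equation in one variable for the value of the integral
  at `x₂ = 0`, and a comparison of the orders of the poles at a simple zero of `A` at which `B` does
  not vanish gives a contradiction. (This is the residue of `g ^ (1 - 3/d) / A` at this point.)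

For `d = 3` the number `-3/d = -1` need not be a root of `b_I`. -/

namespace Pool.Agent.Results.MP_ee8c61_ag.LargeMultiplicitySystems

open MvPolynomial Pool.Agent.W574.CN Pool.Agent.W574.MO Pool.Agent.W574.HS Pool.Agent.W574.SM
  Pool.Agent.H628R4.TP Pool.Agent.Helper748.MC

/-- Let `f_j` be forms of the same degree `d > 0`, `d ≠ 3`, in three variables, such that some linear
combination `∑ lam_j f_j` is, in some linear coordinates, of the form
`x₀ x₂ a(x₀, x₁) + b(x₀, x₁)` with `a(0, 1) ≠ 0` and `b(0, 1) ≠ 0`, let `b` be a polynomial which
satisfies a functional equation of the `f_j` (in particular the Bernstein-Sato polynomial of the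
ideal `I = (f_j)`). Then `b(-3/d) = 0`, and every pole of the topological zeta function of `I` is a
root of `b`. For a single form `f` this is the strong monodromy conjecture for `f`. -/
theorem result {ι : Type} [Fintype ι] (f : ι → MvPolynomial (Fin 3) ℂ) (d : ℕ) (hd : 0 < d)
    (hd3 : d ≠ 3) (hf : ∀ j, (f j).IsHomogeneous d) (lam : ι → ℂ) (h : FanForm (lcomb f lam))
    (b : Polynomial ℂ) (hb : IsFunctionalEq f b) :
    b.eval (-3 / d : ℂ) = 0 ∧
      ∀ Z : RatFunc ℂ, ConeZeta f d Z → ∀ s₀ : ℂ, Z.denom.eval s₀ = 0 → b.eval s₀ = 0 := by
  classical
  exact ⟨fan_ideal f d hd hd3 hf lam h b hb, fun Z hZ s₀ hs₀ =>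
    top_ideal_of f d hd hf b hb (fan_ideal f d hd hd3 hf lam h b hb) Z hZ s₀ hs₀⟩

end Pool.Agent.Results.MP_ee8c61_ag.LargeMultiplicitySystems
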