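import Pool.Agent.helper748_mc.QuadThm

set_option autoImplicit false

/-! # The strong monodromy conjecture for linear systems of plane curves, III

`I = (f_j)` is an ideal of `ℂ[x₀, x₁, x₂]` generated by forms `f_j` of the same degree `d`. The
topological zeta function of `I` is `Z_J / (d s + 3)`, where `J` is the ideal sheaf which `I`
defines on the projective plane, and `Z_J` is computed by blowing up points; see `ConeZeta` (in
`Pool.Agent.W574.CN.Defs`), `PlaneZeta` and `LocalZeta` (in `Pool.Agent.W574.SM.ZetaDefs`). All
poles except possibly `-3/d` are known to be roots of `b_I` (`cone_main`), so that the question is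
whether `b_I(-3/d) = 0`; this is known if three of the forms are algebraically independent. We
prove it if `d` is not a divisor of `6`, and some linear combination `g` of the `f_j` defines a
curve with a point of multiplicity `d - 2` such that the double covering of the projective line
which is given by the lines through this point has enough special fibres, counted as in
`QuadForm`.

The proof of `b(-3/d) = 0`, for a form `g` in the class (`g` is the linear combination):

* `ex_main`: a functional equation gives an identity
  `b(c) g ^ (K + 1) = ∑ (g ∂_i v_i(c) + (c - K) (∂_i g) v_i(c))` with forms `v_i(c)` of the degree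
  `d K + 1` which depend polynomially on `c`; so `b(c) g ^ c` is the divergence of `v(c) g ^ (c - K)`;
* `exact_two`: for `c = -3/d` this gives such an identity in the two variables `x₀`, `x₂`;
* `exists_red`, `chain`, `red_G0`, `quad_eq`: as `g = A x₂ ^ 2 + B x₂ + C` has the degree `2` in
  `x₂`, and as `6/d` is not an integer, one can reduce modulo derivatives with respect to `x₂`, at
  the cost of powers of `A`, to polynomials in `x₀`, `x₁`; this gives a differential equation of the
  first order in the variable `x₀`, with the discriminant `D = B ^ 2 - 4 A C`;
* `ord_at`: the order of its solution at each root of `A D`; `quad_count`: the sum of these orders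
  would be greater than the degree of the solution. (So the integral of `g ^ (-3/d) Ω`
  over the lines through the point is a form `∏ (t - t_i) ^ e_i dt` which is not exact.) -/

namespace Pool.Agent.Results.MP_ee8c61_ag.MultiplicityMinusTwoSystems

open MvPolynomial Pool.Agent.W574.CN Pool.Agent.W574.MO Pool.Agent.W574.HS Pool.Agent.W574.SM
  Pool.Agent.H628R4.TP Pool.Agent.Helper748.MC

/-- Let `f_j` be forms of the same degree `d`, `d` not a divisor of `6`, in three variables, such that
some linear combination `g = ∑ lam_j f_j` satisfies `QuadForm d g` (so that the curve `g = 0` has
a point of multiplicity `d - 2`), let `b` be a polynomial which satisfies a functional equation of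
the `f_j` (in particular the Bernstein-Sato polynomial of the ideal `I = (f_j)`). Then
`b(-3/d) = 0`, and every pole of the topological zeta function of `I` is a root of `b`. For a single
form `f` this is the strong monodromy conjecture for `f`. -/
theorem result {ι : Type} [Fintype ι] (f : ι → MvPolynomial (Fin 3) ℂ) (d : ℕ) (hd : ¬ d ∣ 6)
    (hf : ∀ j, (f j).IsHomogeneous d) (lam : ι → ℂ) (h : QuadForm d (lcomb f lam))
    (b : Polynomial ℂ) (hb : IsFunctionalEq f b) :
    b.eval (-3 / d : ℂ) = 0 ∧
      ∀ Z : RatFunc ℂ, ConeZeta f d Z → ∀ s₀ : ℂ, Z.denom.eval s₀ = 0 → b.eval s₀ = 0 := by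
  classical
  exact ⟨quad_ideal f d hd hf lam h b hb, fun Z hZ s₀ hs₀ =>
    top_ideal_of f d h.pos hf b hb (quad_ideal f d hd hf lam h b hb) Z hZ s₀ hs₀⟩

end Pool.Agent.Results.MP_ee8c61_ag.MultiplicityMinusTwoSystems
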