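import Pool.Agent.helper748_mc.Thm

set_option autoImplicit false

/-! # The strong monodromy conjecture for strictly semistable linear systems of plane curves

`I = (f_j)` is an ideal of `ℂ[x₀, x₁, x₂]` generated by forms `f_j` of the same degree `d`. The
topological zeta function of `I` is `Z_J / (d s + 3)`, where `J` is the ideal sheaf which `I`
defines on the projective plane, and `Z_J` is computed by blowing up points; see `ConeZeta` (in
`Pool.Agent.W574.CN.Defs`), `PlaneZeta` and `LocalZeta` (in `Pool.Agent.W574.SM.ZetaDefs`). All
poles except possibly `-3/d` are known to be roots of `b_I` (`cone_main`), so that the question is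
whether `b_I(-3/d) = 0`; this is known if three of the forms are algebraically independent.

The proof of `b_I(-3/d) = 0`, if a linear combination `g` of the `f_j` is strictly semistable:

* `ex_main`: a functional equation of the ideal gives an identity
  `b(c) g ^ (K + 1) = ∑ (g ∂_i v_i(c) + (c - K) (∂_i g) v_i(c))` with forms `v_i(c)` of the degree
  `d K + 1` which depend polynomially on `c`; so `b(c) g ^ c` is the divergence of `v(c) g ^ (c - K)`;
* `exact_initial`: if `g ^ s` is such a divergence, and all monomials of `g` have a weight `≥ 0`
  for a weight `w` with the sum `0`, then the same holds for the part of the weight `0` of `g`;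
* `log_eq`, `uni_main`: if moreover the barycenter lies in the convex hull of the monomials of the
  weight `0`, one gets a differential equation in one variable which has no solution for
  `s = -3/d`;
* `exists_face`: for strictly semistable forms there are linear coordinates in which this
  applies. -/

namespace Pool.Agent.Results.MP_ee8c61_ag.StrictlySemistableSystems

open MvPolynomial Pool.Agent.W574.CN Pool.Agent.W574.SM Pool.Agent.Helper748.MC

/-- Let `f_j` be forms of the same degree `d > 0` in three variables, such that some linear
combination `∑ lam_j f_j` is strictly semistable (or satisfies `BoundaryForm`), let `b` be a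
polynomial which satisfies a functional equation of the `f_j` (in particular the Bernstein-Sato
polynomial of the ideal `I = (f_j)`). Then `b(-3/d) = 0`, and every pole of the topological zeta
function of `I` is a root of `b`. For a single form `f` this is the strong monodromy conjecture for
`f`. -/
theorem result {ι : Type} [Fintype ι] (f : ι → MvPolynomial (Fin 3) ℂ) (d : ℕ) (hd : 0 < d)
    (hf : ∀ j, (f j).IsHomogeneous d) (lam : ι → ℂ)
    (h : StrictlySemistable (lcomb f lam) ∨ BoundaryForm d (lcomb f lam))
    (b : Polynomial ℂ) (hb : IsFunctionalEq f b) :
    b.eval (-3 / d : ℂ) = 0 ∧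
      ∀ Z : RatFunc ℂ, ConeZeta f d Z → ∀ s₀ : ℂ, Z.denom.eval s₀ = 0 → b.eval s₀ = 0 := by
  classical
  have hlc : (lcomb f lam).IsHomogeneous d := by
    rw [lcomb]
    exact IsHomogeneous.sum _ _ _ fun j _ => by
      simpa using (isHomogeneous_C (Fin 3) (lam j)).mul (hf j)
  obtain ⟨hf0, hE⟩ := not_exact_of hd hlc h
  exact ⟨root_of_not_exact f d hd hf b hb lam hf0 hE, fun Z hZ s₀ hs₀ =>
    top_of_not_exact f d hd hf b hb lam hf0 hE Z hZ s₀ hs₀⟩

end Pool.Agent.Results.MP_ee8c61_ag.StrictlySemistableSystems
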